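import Pool.Agent.SGE.Stmts

/-!
# SGE, row NT0: the single edge is a near-triangulation
-/

set_option autoImplicit false

open scoped BigOperators

namespace Pool.Agent.SGE.H36

open Pool.Agent.SGE

theorem nt0 : Nt0Stmt := by
  intro V _ a b hab
  classical
  refine
    { ab := hab
      nd := ?_
      hd := rfl
      ls := rfl
      sym := ?_
      irr := ?_
      rot := fun _ _ _ h => h
      fn := fun _ _ _ _ h => h.elim
      fe := fun _ _ _ h => h.elim
      bd := ?_
      int := ?_
      hom := ?_
      con := ?_ }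
  · simp [hab]
  · rintro u v (⟨rfl, rfl⟩ | ⟨rfl, rfl⟩)
    · exact Or.inr ⟨rfl, rfl⟩
    · exact Or.inl ⟨rfl, rfl⟩
  · rintro u (⟨h1, h2⟩ | ⟨h1, h2⟩)
    · exact hab (h1.symm.trans h2)
    · exact hab (h2.symm.trans h1)
  · refine ⟨⟨[b], rfl, rfl, List.isChain_singleton _, List.nodup_singleton _, ?_, fun _ h => h⟩,
      ⟨[a], rfl, rfl, List.isChain_singleton _, List.nodup_singleton _, ?_, fun _ h => h⟩, trivial⟩
    · intro z
      rw [List.mem_singleton]
      constructor
      · rintro (⟨_, h⟩ | ⟨h, _⟩)
        · exact h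
        · exact absurd h hab
      · intro h
        exact Or.inl ⟨rfl, h⟩
    · intro z
      rw [List.mem_singleton]
      constructor
      · rintro (⟨h, _⟩ | ⟨_, h⟩)
        · exact absurd h.symm hab
        · exact h
      · intro h
        exact Or.inr ⟨rfl, h⟩
  · rintro z v hz (⟨h, _⟩ | ⟨h, _⟩)
    · exact absurd (by simp [h]) hz
    · exact absurd (by simp [h]) hz
  · intro Z hs hE hsum
    have hab0 : Z a b = 0 := by
      have h := hsum a
      rw [Finset.sum_eq_single b] at h
      · exact h
      · intro v _ hv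
        by_contra hne
        rcases hE a v hne with h' | h'
        · exact hv h'.2
        · exact hab h'.1
      · intro hb
        exact absurd (Finset.mem_univ b) hb
    have hZ : ∀ u v, Z u v = 0 := by
      intro u v
      by_contra hne
      rcases hE u v hne with ⟨h1, h2⟩ | ⟨h1, h2⟩
      · rw [h1, h2] at hne
        exact hne hab0
      · rw [h1, h2, hs] at hne
        exact hne hab0
    refine ⟨fun _ _ => 0, fun _ _ _ h => h.elim, fun _ _ _ => rfl, fun u v => ?_⟩
    rw [hZ u v, add_zero]
  · rintro u v (⟨h, _⟩ | ⟨h, _⟩)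
    · rw [h]
    · rw [h]
      exact Relation.ReflTransGen.single (Or.inl ⟨rfl, rfl⟩)

end Pool.Agent.SGE.H36
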